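import Pool.Agent.E8helper27.SP.Asm

/-!
# The length of the superpatterns on `k + 1` letters, with an improved lower-order term

A word `σ` over `r` letters contains a permutation `τ` of `k` points if some subsequence of `σ` of length `k` is
order-isomorphic to `τ`; it is a `k`-superpattern if it contains all of them.
-/

set_option autoImplicit false

namespace Pool.Agent.Results.MP_467d97_co.LowerOrderTermH27

/-- the word `σ ∈ [r]^n` contains the permutation `τ ∈ S_k` -/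
def Contains {n r k : ℕ} (σ : Fin n → Fin r) (τ : Equiv.Perm (Fin k)) : Prop :=
  ∃ i : Fin k → Fin n, StrictMono i ∧ ∀ j j' : Fin k, τ j < τ j' ↔ σ (i j) < σ (i j')

/-- the word `σ ∈ [r]^n` is a `k`-superpattern -/
def IsSuperpattern {n r : ℕ} (k : ℕ) (σ : Fin n → Fin r) : Prop :=
  ∀ τ : Equiv.Perm (Fin k), Contains σ τ

/-- `f(k; r)`: the least `n` for which `[r]^n` contains a `k`-superpattern -/
noncomputable def f (k r : ℕ) : ℕ := sInf {n : ℕ | ∃ σ : Fin n → Fin r, IsSuperpattern k σ}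

/-- **Theorem.** (1) For every `c > 3 / 2` (in particular for `c = 8 / 5 < 7 / 4`) there is `C > 0` such that
`f(k; k + 1) ≥ (k ^ 2 + k) / 2 - C k ^ c` for all `k`.

(2) For all `k ≤ r`, `f(k; r) ≥ (k ^ 2 + k) / 2 - 3 k ^ (3 / 2) (2 log ((k + 1) ^ 3 (r choose k))) ^ (1 / 2)`.
(The set in the definition of `f(k; r)` is not empty.) -/
theorem result :
    (∀ c : ℝ, 3 / 2 < c → ∃ C : ℝ, 0 < C ∧ ∀ k : ℕ,
      ((k : ℝ) ^ 2 + k) / 2 - C * (k : ℝ) ^ c ≤ f k (k + 1)) ∧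
    (∀ k r : ℕ, k ≤ r → (∃ (n : ℕ) (σ : Fin n → Fin r), IsSuperpattern k σ) ∧
      ((k : ℝ) ^ 2 + k) / 2 -
        3 * (k : ℝ) ^ (3 / 2 : ℝ) * Real.sqrt (2 * Real.log (((k : ℝ) + 1) ^ 3 * r.choose k)) ≤ f k r) := by
  have main : ∀ k r : ℕ, k ≤ r → ((k : ℝ) ^ 2 + k) / 2 -
        3 * (k : ℝ) ^ (3 / 2 : ℝ) * Real.sqrt (2 * Real.log (((k : ℝ) + 1) ^ 3 * r.choose k)) ≤ f k r := by
    intro k r hkr
    rcases Nat.eq_zero_or_pos k with hk | hk
    · subst hk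
      rw [Nat.cast_zero, Real.zero_rpow (by norm_num)]
      simp
    have hne : {n : ℕ | ∃ σ : Fin n → Fin r, IsSuperpattern k σ}.Nonempty :=
      Pool.Agent.E8helper27.SP.exists_superpattern k r hkr
    obtain ⟨σ, hσ⟩ := Nat.sInf_mem hne
    have h1 := Pool.Agent.E8helper27.SP.main k (f k r) r hk hkr σ hσ
    have hk0 : (0 : ℝ) < k := by exact_mod_cast hk
    have h2 : (k : ℝ) ^ (3 / 2 : ℝ) = k * Real.sqrt k := by
      rw [Real.sqrt_eq_rpow, show (3 / 2 : ℝ) = 1 + 1 / 2 by norm_num, Real.rpow_add hk0, Real.rpow_one]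
    rw [h2]
    refine le_trans (le_of_eq ?_) h1.le
    ring
  refine ⟨?_, fun k r hkr => ⟨Pool.Agent.E8helper27.SP.exists_superpattern k r hkr, main k r hkr⟩⟩
  intro c hc
  obtain ⟨e, he⟩ : ∃ e : ℝ, e = 2 * c - 3 := ⟨_, rfl⟩
  have he0 : 0 < e := by rw [he]; linarith
  have hX : 0 < 8 * ((2 : ℝ) ^ e / e) := by positivity
  refine ⟨3 * Real.sqrt (8 * ((2 : ℝ) ^ e / e)), by positivity, fun k => ?_⟩
  rcases Nat.eq_zero_or_pos k with hk | hk
  · subst hk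
    rw [Nat.cast_zero, Real.zero_rpow (by linarith)]
    simp
  have hk0 : (0 : ℝ) < k := by exact_mod_cast hk
  have hk1 : (1 : ℝ) ≤ k := by exact_mod_cast hk
  refine le_trans ?_ (main k (k + 1) (Nat.le_succ k))
  have h1 : (((k + 1).choose k : ℕ) : ℝ) = k + 1 := by
    rw [Nat.choose_succ_self_right]
    push_cast
    ring
  have h2 : 2 * Real.log (((k : ℝ) + 1) ^ 3 * ((k + 1).choose k : ℕ)) = 8 * Real.log ((k : ℝ) + 1) := by
    rw [h1, ← pow_succ, Real.log_pow]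
    push_cast
    ring
  have h3 : Real.log ((k : ℝ) + 1) ≤ (2 : ℝ) ^ e / e * (k : ℝ) ^ e := by
    have h4 := Real.log_le_rpow_div (x := (k : ℝ) + 1) (by linarith) he0
    refine h4.trans ?_
    rw [div_mul_eq_mul_div, ← Real.mul_rpow (by norm_num) hk0.le]
    apply div_le_div_of_nonneg_right _ he0.le
    exact Real.rpow_le_rpow (by linarith) (by linarith) he0.le
  have h4 : Real.sqrt (2 * Real.log (((k : ℝ) + 1) ^ 3 * ((k + 1).choose k : ℕ))) ≤
      Real.sqrt (8 * ((2 : ℝ) ^ e / e)) * (k : ℝ) ^ (e / 2) := by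
    rw [h2]
    have h5 : (k : ℝ) ^ (e / 2) = Real.sqrt ((k : ℝ) ^ e) := by
      rw [Real.sqrt_eq_rpow, ← Real.rpow_mul hk0.le]
      congr 1
      ring
    rw [h5, ← Real.sqrt_mul hX.le]
    apply Real.sqrt_le_sqrt
    linarith
  have h5 : (k : ℝ) ^ c = (k : ℝ) ^ (3 / 2 : ℝ) * (k : ℝ) ^ (e / 2) := by
    rw [← Real.rpow_add hk0]
    congr 1
    rw [he]
    ring
  have h6 : 0 ≤ 3 * (k : ℝ) ^ (3 / 2 : ℝ) := by positivity
  have h7 := mul_le_mul_of_nonneg_left h4 h6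
  have h8 : 3 * Real.sqrt (8 * ((2 : ℝ) ^ e / e)) * (k : ℝ) ^ c =
      3 * (k : ℝ) ^ (3 / 2 : ℝ) * (Real.sqrt (8 * ((2 : ℝ) ^ e / e)) * (k : ℝ) ^ (e / 2)) := by
    rw [h5]
    ring
  rw [h8]
  linarith

end Pool.Agent.Results.MP_467d97_co.LowerOrderTermH27
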